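import Pool.Agent.W325.S3.Stm
import Pool.Agent.H46R2.K3.Basic

set_option autoImplicit false

/-!
Covered walks have a small extension.
-/

namespace Pool.Agent.W320.S3

open Finset Pool.Agent.H46R2.K3 Pool.Agent.H46R2.K3.P Pool.Agent.W325.S3

lemma ivt {f : ℕ → ℤ} {n : ℕ} (hf : ∀ k < n, |f (k + 1) - f k| ≤ 1) (a : ℕ) :
    ∀ m : ℕ, a + m ≤ n → ∀ x : ℤ, (f a ≤ x ∧ x ≤ f (a + m)) ∨ (f (a + m) ≤ x ∧ x ≤ f a) →
      ∃ k ≤ n, f k = x := by
  intro m
  induction m with
  | zero =>
    intro h x hx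
    refine ⟨a, by omega, ?_⟩
    rw [Nat.add_zero] at hx
    omega
  | succ m ih =>
    intro h x hx
    have h1 := abs_le.1 (hf (a + m) (by omega))
    rw [← Nat.add_assoc] at hx
    by_cases h2 : x = f (a + m + 1)
    · exact ⟨a + m + 1, by omega, h2.symm⟩
    · refine ih (by omega) x ?_
      omega

lemma pos_step (w : List St) (d : Fin 3) (k : ℕ) (hk : k < w.length) :
    |pos w (k + 1) d - pos w k d| ≤ 1 := by
  rw [pos_succ hk, Pi.add_apply, add_sub_cancel_left]
  exact abs_vec_le _ _

theorem ext : S_EXT := by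
  classical
  intro w E p hc i hi j hj d
  obtain ⟨P, hP, hcov⟩ := hc
  by_cases hlt : pos w i d < pos w j d
  · have : (0:ℤ) ≤ (p : ℤ) * (2 * (E : ℤ) + 1) := by positivity
    linarith
  · push Not at hlt
    have hsub : Finset.Icc (pos w j d) (pos w i d) ⊆
        P.biUnion fun a => Finset.Icc (a d - (E:ℤ)) (a d + E) := by
      intro x hx
      rw [Finset.mem_Icc] at hx
      obtain ⟨k, hk, hkx⟩ : ∃ k ≤ w.length, pos w k d = x := by
        rcases Nat.le_total j i with h | h
        · obtain ⟨m, rfl⟩ := Nat.exists_eq_add_of_le h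
          exact ivt (f := fun k => pos w k d) (fun k hk => pos_step w d k hk) j m hi x
            (Or.inl hx)
        · obtain ⟨m, rfl⟩ := Nat.exists_eq_add_of_le h
          exact ivt (f := fun k => pos w k d) (fun k hk => pos_step w d k hk) i m hj x
            (Or.inr hx)
      obtain ⟨a, ha, had⟩ := hcov k hk
      rw [Finset.mem_biUnion]
      refine ⟨a, ha, ?_⟩
      have := abs_le.1 (had d)
      rw [Finset.mem_Icc]
      omega
    have h1 := Finset.card_le_card hsub
    have h2 : #(P.biUnion fun a => Finset.Icc (a d - (E:ℤ)) (a d + E)) ≤ #P * (2 * E + 1) := by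
      refine Finset.card_biUnion_le_card_mul _ _ _ fun a _ => ?_
      rw [Int.card_Icc]
      omega
    have h3 : #P * (2 * E + 1) ≤ p * (2 * E + 1) := Nat.mul_le_mul_right _ hP
    rw [Int.card_Icc] at h1
    have h4 : (pos w i d + 1 - pos w j d).toNat ≤ p * (2 * E + 1) := h1.trans (h2.trans h3)
    have h5 : pos w i d + 1 - pos w j d ≤ ((p * (2 * E + 1) : ℕ) : ℤ) := by omega
    push_cast at h5
    linarith

end Pool.Agent.W320.S3
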