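import Pool.Agent.W325.S3.Stm
import Pool.Agent.H46R2.K3.Basic
import Pool.Agent.H46R2.K3.MU

set_option autoImplicit false

/-!
Typical walks are covered by few cubes.
-/

namespace Pool.Agent.W320.S3.Fast

open Finset Pool.Agent.H46R2.K3 Pool.Agent.H46R2.K3.P Pool.Agent.W325.S3

lemma cov_drop {w : List St} {E p k : ℕ} (hk : k ≤ w.length)
    (h : ∀ i ≤ k, ∀ d, |pos w i d| ≤ (E : ℤ)) (hc : Cov (w.drop k) E p) : Cov w E (p + 1) := by
  classical
  obtain ⟨P, hP, hcov⟩ := hc
  refine ⟨insert 0 (P.image fun a => a + pos w k), ?_, ?_⟩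
  · refine (Finset.card_insert_le _ _).trans ?_
    have := Finset.card_image_le (s := P) (f := fun a => a + pos w k)
    omega
  · intro i hi
    by_cases hik : i ≤ k
    · refine ⟨0, Finset.mem_insert_self _ _, fun d => ?_⟩
      rw [Pi.zero_apply, sub_zero]
      exact h i hik d
    · obtain ⟨j, rfl⟩ := Nat.exists_eq_add_of_le (not_le.1 hik).le
      obtain ⟨a, ha, had⟩ := hcov j (by rw [List.length_drop]; omega)
      refine ⟨a + pos w k, Finset.mem_insert_of_mem (Finset.mem_image_of_mem _ ha), fun d => ?_⟩
      have h1 := had d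
      rw [pos_drop w hk] at h1
      simp only [Pi.add_apply, Pi.sub_apply] at h1 ⊢
      rw [← sub_sub, sub_right_comm]
      exact h1

lemma cov_one {w : List St} {E p : ℕ} (h : ∀ i ≤ w.length, ∀ d, |pos w i d| ≤ (E : ℤ)) :
    Cov w E (p + 1) := by
  refine ⟨{0}, by simp, fun i hi => ⟨0, Finset.mem_singleton_self _, fun d => ?_⟩⟩
  rw [Pi.zero_apply, sub_zero]
  exact h i hi d

open Classical in
/-- the far words -/
noncomputable def FS (k E : ℕ) : Finset (List St) :=
  (W k).filter fun w => Saw w ∧ ∃ d, (E : ℤ) ≤ |disp w d|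

open Classical in
/-- the bad words -/
noncomputable def BS (n E p : ℕ) : Finset (List St) := (W n).filter fun w => Saw w ∧ ¬ Cov w E p

open Classical in
/-- the self-avoiding words -/
noncomputable def CS (n : ℕ) : Finset (List St) := (W n).filter Saw

lemma card_FS (k E : ℕ) : #(FS k E) = far k E := rfl
lemma card_BS (n E p : ℕ) : #(BS n E p) = bad n E p := rfl
lemma card_CS (n : ℕ) : #(CS n) = c n := rfl

open Classical in
/-- words of length `n` which are cut into two words of the given sets at `k` -/
noncomputable def cut (n k : ℕ) (A B : Finset (List St)) : Finset (List St) :=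
  (W n).filter fun w => w.take k ∈ A ∧ w.drop k ∈ B

lemma cut_card (n k : ℕ) (A B : Finset (List St)) : #(cut n k A B) ≤ #A * #B := by
  classical
  rw [← Finset.card_product]
  refine Finset.card_le_card_of_injOn (fun w => (w.take k, w.drop k)) ?_ ?_
  · intro w hw
    unfold cut at hw
    rw [Finset.mem_coe, Finset.mem_filter] at hw
    rw [Finset.mem_coe, Finset.mem_product]
    exact hw.2
  · intro w _ w' _ h
    simp only [Prod.mk.injEq] at h
    rw [← List.take_append_drop k w, ← List.take_append_drop k w', h.1, h.2]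

lemma BS_sub (m n E p : ℕ) (hE : 1 ≤ E) :
    BS n E (p + 1) ⊆ ((Finset.Icc 1 (min m n)).biUnion fun k => cut n k (FS k E) (BS (n - k) E p)) ∪
      (if m < n then cut n m (CS m) (BS (n - m) E p) else ∅) := by
  classical
  intro w hw
  unfold BS at hw
  rw [Finset.mem_filter, mem_W] at hw
  obtain ⟨hn, hs, hc⟩ := hw
  rw [Finset.mem_union]
  by_cases hex : ∃ k, k ≤ min m n ∧ ∃ d, (E : ℤ) ≤ |pos w k d|
  · left
    set k := Nat.find hex with hk
    obtain ⟨hkm, hkd⟩ := Nat.find_spec hex
    rw [← hk] at hkm hkd
    have hmin : ∀ i < k, ∀ d, |pos w i d| < (E : ℤ) := by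
      intro i hi d
      have := Nat.find_min hex hi
      push Not at this
      exact this (by omega) d
    have hk0 : k ≠ 0 := by
      intro h0
      rw [h0] at hkd
      obtain ⟨d, hd⟩ := hkd
      rw [pos_zero, Pi.zero_apply, abs_zero] at hd
      have : (1:ℤ) ≤ E := by exact_mod_cast hE
      linarith
    have hkn : k ≤ w.length := by rw [hn]; exact hkm.trans (min_le_right _ _)
    rw [Finset.mem_biUnion]
    refine ⟨k, Finset.mem_Icc.2 ⟨by omega, hkm⟩, ?_⟩
    unfold cut
    rw [Finset.mem_filter, mem_W]
    refine ⟨hn, ?_, ?_⟩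
    · unfold FS
      rw [Finset.mem_filter, mem_W, disp_take]
      refine ⟨by rw [List.length_take]; omega, saw_take hs k, hkd⟩
    · unfold BS
      rw [Finset.mem_filter, mem_W]
      refine ⟨by rw [List.length_drop, hn], saw_drop hs k, fun hcov => hc ?_⟩
      refine cov_drop hkn (fun i hi d => ?_) hcov
      rcases Nat.lt_or_ge i k with h | h
      · exact (hmin i h d).le
      · have hik : i = (k - 1) + 1 := by omega
        have h1 := hmin (k - 1) (by omega) d
        rw [hik, pos_succ (by omega), Pi.add_apply]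
        refine (abs_add_le _ _).trans ?_
        have h2 := abs_vec_le (w[k - 1]'(by omega)) d
        omega
  · right
    push Not at hex
    have hmn : m < n := by
      by_contra hcon
      push Not at hcon
      refine hc (cov_one fun i hi d => (hex i ?_ d).le)
      rw [min_eq_right hcon, ← hn]
      exact hi
    rw [if_pos hmn]
    unfold cut
    rw [Finset.mem_filter, mem_W]
    refine ⟨hn, ?_, ?_⟩
    · unfold CS
      rw [Finset.mem_filter, mem_W]
      exact ⟨by rw [List.length_take]; omega, saw_take hs m⟩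
    · unfold BS
      rw [Finset.mem_filter, mem_W]
      refine ⟨by rw [List.length_drop, hn], saw_drop hs m, fun hcov => hc ?_⟩
      refine cov_drop (by omega) (fun i hi d => (hex i ?_ d).le) hcov
      rw [min_eq_left hmn.le]
      exact hi

lemma bad_le (m n E p : ℕ) (hE : 1 ≤ E) :
    (bad n E (p + 1) : ℝ) ≤ (∑ k ∈ Finset.Icc 1 (min m n), (far k E : ℝ) * (bad (n - k) E p : ℝ)) +
      (if m < n then (c m : ℝ) * (bad (n - m) E p : ℝ) else 0) := by
  classical
  have h1 := (Finset.card_le_card (BS_sub m n E p hE)).trans (Finset.card_union_le _ _)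
  have h2 : #((Finset.Icc 1 (min m n)).biUnion fun k => cut n k (FS k E) (BS (n - k) E p)) ≤
      ∑ k ∈ Finset.Icc 1 (min m n), far k E * bad (n - k) E p :=
    Finset.card_biUnion_le.trans (Finset.sum_le_sum fun k _ => cut_card _ _ _ _)
  have h3 : #(if m < n then cut n m (CS m) (BS (n - m) E p) else ∅) ≤
      if m < n then c m * bad (n - m) E p else 0 := by
    split_ifs
    · exact cut_card _ _ _ _
    · simp
  have h4 : bad n E (p + 1) ≤ (∑ k ∈ Finset.Icc 1 (min m n), far k E * bad (n - k) E p) +
      if m < n then c m * bad (n - m) E p else 0 := h1.trans (add_le_add h2 h3)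
  have h5 : ((bad n E (p + 1) : ℕ) : ℝ) ≤
      (((∑ k ∈ Finset.Icc 1 (min m n), far k E * bad (n - k) E p) +
      if m < n then c m * bad (n - m) E p else 0 : ℕ) : ℝ) := by exact_mod_cast h4
  refine h5.trans (le_of_eq ?_)
  push_cast
  split_ifs <;> simp

lemma mu0 : 0 < mu := lt_of_lt_of_le one_pos one_le_mu

theorem fast : S_FAST := by
  classical
  intro m E g hm hE hg hc hf
  have hg0 : 0 < g := by
    have h1 : (1:ℝ) < Real.exp g := by
      have : (1:ℝ) ≤ m := by exact_mod_cast hm
      linarith
    exact Real.one_lt_exp_iff.1 h1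
  have hmu := mu0
  -- the bound for all words
  have hcn : ∀ n : ℕ, (c n : ℝ) ≤ mu ^ n * Real.exp (g * (((n / m : ℕ) : ℝ) + 1)) := by
    intro n
    induction n using Nat.strong_induction_on with
    | _ n ih =>
      rcases Nat.lt_or_ge m n with h | h
      · have h1 := ih (n - m) (by omega)
        have h2 := mu_c_add m (n - m)
        rw [Nat.add_sub_cancel' h.le] at h2
        have h2' : (c n : ℝ) ≤ c m * c (n - m) := by exact_mod_cast h2
        have e1 : n / m = (n - m) / m + 1 := by
          have := Nat.add_div_right (n - m) (show 0 < m from hm)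
          rw [Nat.sub_add_cancel h.le] at this
          exact this
        calc (c n : ℝ) ≤ c m * c (n - m) := h2'
          _ ≤ (mu ^ m * Real.exp g) *
              (mu ^ (n - m) * Real.exp (g * ((((n - m) / m : ℕ) : ℝ) + 1))) := by
              have := hc m le_rfl
              gcongr
          _ = mu ^ n * Real.exp (g * (((n / m : ℕ) : ℝ) + 1)) := by
              rw [mul_mul_mul_comm, ← pow_add, Nat.add_sub_cancel' h.le, ← Real.exp_add, e1]
              push_cast
              ring_nf
      · refine (hc n h).trans ?_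
        gcongr
        have : (0:ℝ) ≤ ((n / m : ℕ) : ℝ) := Nat.cast_nonneg _
        nlinarith
  intro n p
  induction p generalizing n with
  | zero =>
    have h1 : bad n E 0 ≤ c n := by
      rw [← card_BS, ← card_CS]
      refine Finset.card_le_card fun w hw => ?_
      unfold BS at hw
      unfold CS
      rw [Finset.mem_filter] at hw ⊢
      exact ⟨hw.1, hw.2.1⟩
    have h2 : (bad n E 0 : ℝ) ≤ c n := by exact_mod_cast h1
    refine (h2.trans (hcn n)).trans ?_
    gcongr
    have : (0:ℝ) ≤ ((n / m : ℕ) : ℝ) := Nat.cast_nonneg _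
    push_cast
    nlinarith
  | succ p ih =>
    refine (bad_le m n E p hE).trans ?_
    set X : ℝ := Real.exp (g * (5 * ((n / m : ℕ) : ℝ) + 1 - 3 * (p : ℝ))) with hX
    have hX0 : 0 < X := Real.exp_pos _
    have hA : ∀ k ∈ Finset.Icc 1 (min m n), (far k E : ℝ) * (bad (n - k) E p : ℝ) ≤
        mu ^ n * Real.exp (-(4 * g)) * X := by
      intro k hk
      rw [Finset.mem_Icc] at hk
      have hkm : k ≤ m := hk.2.trans (min_le_left _ _)
      have hkn : k ≤ n := hk.2.trans (min_le_right _ _)
      have h1 := hf k hkm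
      have h2 := ih (n - k)
      have h3 : (((n - k) / m : ℕ) : ℝ) ≤ ((n / m : ℕ) : ℝ) := by
        exact_mod_cast Nat.div_le_div_right (Nat.sub_le n k)
      have h4 : Real.exp (g * (5 * (((n - k) / m : ℕ) : ℝ) + 1 - 3 * (p : ℝ))) ≤ X := by
        rw [hX]
        gcongr
      calc (far k E : ℝ) * (bad (n - k) E p : ℝ)
          ≤ (mu ^ k * Real.exp (-(4 * g))) * (mu ^ (n - k) * X) := by
            refine mul_le_mul h1 (h2.trans ?_) (Nat.cast_nonneg _) (by positivity)
            gcongr
        _ = mu ^ n * Real.exp (-(4 * g)) * X := by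
            have : mu ^ n = mu ^ k * mu ^ (n - k) := by
              rw [← pow_add, Nat.add_sub_cancel' hkn]
            rw [this]
            ring
    have hB : (if m < n then (c m : ℝ) * (bad (n - m) E p : ℝ) else 0) ≤
        mu ^ n * Real.exp (-(4 * g)) * X := by
      split_ifs with h
      · have h1 := hc m le_rfl
        have h2 := ih (n - m)
        have e1 : n / m = (n - m) / m + 1 := by
          have := Nat.add_div_right (n - m) (show 0 < m from hm)
          rw [Nat.sub_add_cancel h.le] at this
          exact this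
        calc (c m : ℝ) * (bad (n - m) E p : ℝ)
            ≤ (mu ^ m * Real.exp g) *
              (mu ^ (n - m) * Real.exp (g * (5 * (((n - m) / m : ℕ) : ℝ) + 1 - 3 * (p : ℝ)))) :=
              mul_le_mul h1 h2 (Nat.cast_nonneg _) (by positivity)
          _ = mu ^ n * Real.exp (-(4 * g)) * X := by
              rw [mul_mul_mul_comm, ← pow_add, Nat.add_sub_cancel' h.le, ← Real.exp_add, hX, e1,
                mul_assoc, ← Real.exp_add]
              push_cast
              ring_nf
      · positivity
    have hsum : (∑ k ∈ Finset.Icc 1 (min m n), (far k E : ℝ) * (bad (n - k) E p : ℝ)) ≤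
        m * (mu ^ n * Real.exp (-(4 * g)) * X) := by
      refine (Finset.sum_le_sum hA).trans ?_
      rw [Finset.sum_const, nsmul_eq_mul, Nat.card_Icc, Nat.add_sub_cancel]
      have : ((min m n : ℕ) : ℝ) ≤ m := by exact_mod_cast min_le_left m n
      gcongr
    calc (∑ k ∈ Finset.Icc 1 (min m n), (far k E : ℝ) * (bad (n - k) E p : ℝ)) +
          (if m < n then (c m : ℝ) * (bad (n - m) E p : ℝ) else 0)
        ≤ m * (mu ^ n * Real.exp (-(4 * g)) * X) + mu ^ n * Real.exp (-(4 * g)) * X :=
          add_le_add hsum hB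
      _ = (m + 1) * (mu ^ n * Real.exp (-(4 * g)) * X) := by ring
      _ ≤ Real.exp g * (mu ^ n * Real.exp (-(4 * g)) * X) := by gcongr
      _ = mu ^ n * Real.exp (g * (5 * ((n / m : ℕ) : ℝ) + 1 - 3 * ((p + 1 : ℕ) : ℝ))) := by
          rw [hX]
          have : Real.exp g * (mu ^ n * Real.exp (-(4 * g)) *
              Real.exp (g * (5 * ((n / m : ℕ) : ℝ) + 1 - 3 * (p : ℝ)))) =
              mu ^ n * (Real.exp g * Real.exp (-(4 * g)) *
              Real.exp (g * (5 * ((n / m : ℕ) : ℝ) + 1 - 3 * (p : ℝ)))) := by ring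
          rw [this, ← Real.exp_add, ← Real.exp_add]
          push_cast
          ring_nf

end Pool.Agent.W320.S3.Fast
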